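import Pool.Agent.K1H76.OM.Num

/-! Piece LB of the project OM (MP_88bd62_nt): the lower bound `3/4` by duality. -/

namespace Pool.Agent.K1H59.OM
open Finset Filter Topology MeasureTheory
open Pool.Agent.K1H76.OM

theorem T_meas : Measurable T := by
  have h : T = (fun m : ℕ => ∑ n ∈ (Icc 1 m).filter (fun n => Odd n),
      (-2 : ℝ) ^ (ArithmeticFunction.cardFactors n)) ∘ (fun x : ℝ => ⌊x⌋₊) := rfl
  rw [h]
  exact (measurable_from_nat).comp Nat.measurable_floor

theorem G_meas (hL : ∀ y : ℝ, 1 ≤ y → Summable (fun j : ℕ => |T (2 ^ j * y) / (2 ^ j * y)|)) :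
    AEStronglyMeasurable G (volume.restrict (Set.Ioc (1 : ℝ) 2)) := by
  apply aestronglyMeasurable_of_tendsto_ae atTop
    (f := fun (N : ℕ) (y : ℝ) => ∑ j ∈ range N, (-1 : ℝ) ^ j * (T (2 ^ j * y) / (2 ^ j * y)))
  · intro N
    apply Measurable.aestronglyMeasurable
    apply Finset.measurable_sum
    intro j _
    exact ((T_meas.comp (measurable_const.mul measurable_id)).div
      (measurable_const.mul measurable_id)).const_mul _
  · rw [ae_restrict_iff' measurableSet_Ioc]
    filter_upwards with y hy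
    have hs : Summable (fun j : ℕ => (-1 : ℝ) ^ j * (T (2 ^ j * y) / (2 ^ j * y))) := by
      apply Summable.of_norm
      apply (hL y hy.1.le).congr
      intro j
      rw [norm_mul, norm_pow, norm_neg, norm_one, one_pow, one_mul, Real.norm_eq_abs]
    exact hs.hasSum.tendsto_sum_nat

/-- the angle -/
noncomputable def ph (y : ℝ) : ℝ := Real.pi * Real.log y / Real.log 2

theorem cpow_sk (k : ℕ) (y : ℝ) (hy : 0 < y) : (y : ℂ) ^ (-(sk k)) =
    ((y⁻¹ : ℝ) : ℂ) * (((Real.cos ((2 * k + 1) * ph y) : ℝ) : ℂ) -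
      ((Real.sin ((2 * k + 1) * ph y) : ℝ) : ℂ) * Complex.I) := by
  rw [Complex.cpow_def_of_ne_zero (by exact_mod_cast hy.ne'), ← Complex.ofReal_log hy.le]
  have h : (Real.log y : ℂ) * (-(sk k)) =
      ((-Real.log y : ℝ) : ℂ) + ((-((2 * k + 1) * ph y) : ℝ) : ℂ) * Complex.I := by
    unfold sk ph
    push_cast
    ring
  rw [h, Complex.exp_add, ← Complex.ofReal_exp, Real.exp_neg, Real.exp_log hy, Complex.exp_mul_I,
    ← Complex.ofReal_cos, ← Complex.ofReal_sin, Real.cos_neg, Real.sin_neg]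
  push_cast
  ring

theorem re_lower (a b x y d r : ℝ) (I : ℂ)
    (h : ‖I - ((x : ℂ) + (y : ℂ) * Complex.I) / 10 ^ 6‖ ≤ d / 10 ^ 6) (hr : a ^ 2 + b ^ 2 ≤ r ^ 2)
    (hr0 : 0 ≤ r) : (a * x - b * y - r * d) / 10 ^ 6 ≤ (((a : ℂ) + b * Complex.I) * I).re := by
  set J : ℂ := ((x : ℂ) + (y : ℂ) * Complex.I) / 10 ^ 6 with hJ
  have e1 : ((a : ℂ) + b * Complex.I) * I = ((a : ℂ) + b * Complex.I) * J +
      ((a : ℂ) + b * Complex.I) * (I - J) := by ring
  have e2 : (((a : ℂ) + b * Complex.I) * J).re = (a * x - b * y) / 10 ^ 6 := by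
    have : J = (((x / 10 ^ 6 : ℝ)) : ℂ) + (((y / 10 ^ 6 : ℝ)) : ℂ) * Complex.I := by
      rw [hJ]
      push_cast
      ring
    rw [this]
    simp only [Complex.mul_re, Complex.add_re, Complex.ofReal_re, Complex.I_re, mul_zero,
      Complex.ofReal_im, Complex.I_im, mul_one, sub_self, add_zero, Complex.add_im,
      Complex.mul_im, zero_add]
    ring
  have e3 : ‖(a : ℂ) + b * Complex.I‖ ≤ r := by
    rw [Complex.norm_add_mul_I]
    exact Real.sqrt_le_iff.mpr ⟨hr0, hr⟩
  have e4 : ‖((a : ℂ) + b * Complex.I) * (I - J)‖ ≤ r * (d / 10 ^ 6) := by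
    rw [norm_mul]
    exact mul_le_mul e3 h (norm_nonneg _) hr0
  have e5 := (abs_le.mp (Complex.abs_re_le_norm (((a : ℂ) + b * Complex.I) * (I - J)))).1
  rw [e1, Complex.add_re, e2]
  have e6 : (a * x - b * y - r * d) / 10 ^ 6 = (a * x - b * y) / 10 ^ 6 - r * (d / 10 ^ 6) := by
    ring
  rw [e6]
  linarith

/-- upper bounds for `|a_k + i b_k|` -/
def rd : List ℤ := [224486068323313047187, 206647059436801237000, 175425333548758395231,
  138823011319575125113, 97407748752503095086, 59945958862550730686, 32219551204212887004,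
  11676857904865928126]

theorem t_LB (hT : Good ao) (hL : S_LIM) (hC : S_FC) (hJ : S_JJ) (hQ : S_L1) : S_LB := by
  by_contra hcon
  have hG : ∀ y : ℝ, 1 ≤ y → y < 2 → |G y| < 3 / 4 := by
    intro y h1 h2
    by_contra h3
    exact hcon ⟨y, h1, h2, not_lt.mp h3⟩
  have hae : ∀ᵐ y : ℝ, y ∈ Set.Ioc (1 : ℝ) 2 → ‖G y‖ ≤ 3 / 4 := by
    have h2 : ∀ᵐ y : ℝ, y ∉ ({2} : Set ℝ) := (Set.countable_singleton (2 : ℝ)).ae_notMem volume
    filter_upwards [h2] with y hy hy2
    rw [Real.norm_eq_abs]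
    exact (hG y hy2.1.le (lt_of_le_of_ne hy2.2 (fun h => hy h))).le
  have hint : IntervalIntegrable G volume 1 2 := by
    rw [intervalIntegrable_iff_integrableOn_Ioc_of_le (by norm_num)]
    apply Integrable.of_bound (G_meas hL.1) (3 / 4)
    rw [ae_restrict_iff' measurableSet_Ioc]
    exact hae
  -- the substitution
  have hlog2 : 0 < Real.log 2 := Real.log_pos (by norm_num)
  have huIcc : Set.uIcc (1 : ℝ) 2 = Set.Icc 1 2 := Set.uIcc_of_le (by norm_num)
  have hWc : Continuous Wf := by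
    unfold Wf
    fun_prop
  have hphc : ContinuousOn ph (Set.uIcc 1 2) := by
    rw [huIcc]
    unfold ph
    apply ContinuousOn.div_const
    apply ContinuousOn.mul continuousOn_const
    exact Real.continuousOn_log.mono (fun y hy => ne_of_gt (lt_of_lt_of_le one_pos hy.1))
  have hinvc : ContinuousOn (fun y : ℝ => y⁻¹) (Set.uIcc 1 2) := by
    rw [huIcc]
    exact continuousOn_inv₀.mono (fun y hy => ne_of_gt (lt_of_lt_of_le one_pos hy.1))
  have hsub : ∫ y in (1 : ℝ)..2, (3 / 4) * (y⁻¹ * |Wf (ph y)|) =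
      (3 / 4) * (Real.log 2 / Real.pi) * ∫ φ in (0 : ℝ)..Real.pi, |Wf φ| := by
    have hs := intervalIntegral.integral_comp_mul_deriv (a := 1) (b := 2) (f := ph)
      (f' := fun y => Real.pi / Real.log 2 * y⁻¹) (g := fun φ => |Wf φ|) (by
        intro y hy
        rw [huIcc] at hy
        have hy0 : y ≠ 0 := ne_of_gt (lt_of_lt_of_le one_pos hy.1)
        have h2 : HasDerivAt ph (Real.pi * y⁻¹ / Real.log 2) y :=
          ((Real.hasDerivAt_log hy0).const_mul Real.pi).div_const (Real.log 2)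
        have h3 : Real.pi / Real.log 2 * y⁻¹ = Real.pi * y⁻¹ / Real.log 2 := by ring
        rw [h3]
        exact h2) (continuousOn_const.mul hinvc) hWc.abs
    have h1 : ph 1 = 0 := by
      unfold ph
      rw [Real.log_one]
      ring
    have h2 : ph 2 = Real.pi := by
      unfold ph
      field_simp
    rw [h1, h2] at hs
    rw [← hs, ← intervalIntegral.integral_const_mul]
    apply intervalIntegral.integral_congr
    intro y _
    simp only [Function.comp]
    have hpi := Real.pi_pos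
    field_simp
  -- each Fourier integral
  have hre : ∀ k : ℕ, (((wa k : ℂ) + (wb k : ℂ) * Complex.I) *
      ∫ y in (1:ℝ)..2, (G y : ℂ) * (y : ℂ) ^ (-(sk k))).re =
      ∫ y in (1:ℝ)..2, G y * (y⁻¹ * (wa k * Real.cos ((2 * k + 1) * ph y) +
        wb k * Real.sin ((2 * k + 1) * ph y))) := by
    intro k
    have e1 : ∫ y in (1:ℝ)..2, (G y : ℂ) * (y : ℂ) ^ (-(sk k)) =
        ∫ y in (1:ℝ)..2, (G y : ℂ) * (((y⁻¹ : ℝ) : ℂ) * (((Real.cos ((2 * k + 1) * ph y) : ℝ) : ℂ) -
          ((Real.sin ((2 * k + 1) * ph y) : ℝ) : ℂ) * Complex.I)) := by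
      apply intervalIntegral.integral_congr
      intro y hy
      rw [huIcc] at hy
      simp only
      rw [cpow_sk k y (lt_of_lt_of_le one_pos hy.1)]
    rw [e1, ← intervalIntegral.integral_const_mul]
    have hi : IntervalIntegrable (fun y : ℝ => ((wa k : ℂ) + (wb k : ℂ) * Complex.I) *
        ((G y : ℂ) * (((y⁻¹ : ℝ) : ℂ) * (((Real.cos ((2 * k + 1) * ph y) : ℝ) : ℂ) -
          ((Real.sin ((2 * k + 1) * ph y) : ℝ) : ℂ) * Complex.I)))) volume 1 2 := by
      apply IntervalIntegrable.const_mul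
      apply IntervalIntegrable.mul_continuousOn
      · exact ⟨hint.1.ofReal, hint.2.ofReal⟩
      · apply ContinuousOn.mul
        · exact Complex.continuous_ofReal.comp_continuousOn hinvc
        · apply ContinuousOn.sub
          · exact Complex.continuous_ofReal.comp_continuousOn
              (Real.continuous_cos.comp_continuousOn (continuousOn_const.mul hphc))
          · apply ContinuousOn.mul _ continuousOn_const
            exact Complex.continuous_ofReal.comp_continuousOn
              (Real.continuous_sin.comp_continuousOn (continuousOn_const.mul hphc))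
    have e2 := Complex.reCLM.intervalIntegral_comp_comm hi
    rw [Complex.reCLM_apply] at e2
    rw [← e2]
    apply intervalIntegral.integral_congr
    intro y _
    simp only [Complex.reCLM_apply, Complex.mul_re, Complex.add_re, Complex.ofReal_re,
      Complex.I_re, mul_zero, Complex.ofReal_im, Complex.I_im, mul_one, sub_self, add_zero,
      Complex.add_im, Complex.mul_im, zero_add, Complex.sub_re, Complex.sub_im, zero_mul, sub_zero,
      zero_sub]
    ring
  have hii : ∀ k : ℕ, IntervalIntegrable (fun y : ℝ => G y * (y⁻¹ *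
      (wa k * Real.cos ((2 * k + 1) * ph y) + wb k * Real.sin ((2 * k + 1) * ph y)))) volume 1 2 := by
    intro k
    apply hint.mul_continuousOn
    apply hinvc.mul
    apply ContinuousOn.add
    · exact continuousOn_const.mul (Real.continuous_cos.comp_continuousOn
        (continuousOn_const.mul hphc))
    · exact continuousOn_const.mul (Real.continuous_sin.comp_continuousOn
        (continuousOn_const.mul hphc))
  have hsum : ∑ k ∈ range 8, (((wa k : ℂ) + (wb k : ℂ) * Complex.I) *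
      ∫ y in (1:ℝ)..2, (G y : ℂ) * (y : ℂ) ^ (-(sk k))).re =
      ∫ y in (1:ℝ)..2, G y * (y⁻¹ * Wf (ph y)) := by
    rw [Finset.sum_congr rfl (fun k _ => hre k), ← intervalIntegral.integral_finsetSum
      (fun k _ => hii k)]
    apply intervalIntegral.integral_congr
    intro y _
    simp only [Wf, Finset.mul_sum]
  have hup : ∑ k ∈ range 8, (((wa k : ℂ) + (wb k : ℂ) * Complex.I) *
      ∫ y in (1:ℝ)..2, (G y : ℂ) * (y : ℂ) ^ (-(sk k))).re ≤
      (3 / 4) * (Real.log 2 / Real.pi) * ∫ φ in (0 : ℝ)..Real.pi, |Wf φ| := by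
    rw [hsum, ← hsub]
    refine le_trans (le_abs_self _) ?_
    rw [← Real.norm_eq_abs]
    apply intervalIntegral.norm_integral_le_of_norm_le (by norm_num)
    · filter_upwards [hae] with y hy hy2
      have hy0 : 0 < y := lt_trans one_pos hy2.1
      rw [norm_mul, norm_mul, Real.norm_eq_abs (Wf (ph y)), Real.norm_eq_abs y⁻¹,
        abs_of_pos (inv_pos.mpr hy0)]
      exact mul_le_mul_of_nonneg_right (hy hy2) (by positivity)
    · apply ContinuousOn.intervalIntegrable
      exact continuousOn_const.mul (hinvc.mul (hWc.comp_continuousOn hphc).abs)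
  -- lower bound
  have hlow : ∀ k ∈ range 8, (((wd.getD k (0, 0)).1 * (Jd.getD k (0, 0, 0)).1 -
      (wd.getD k (0, 0)).2 * (Jd.getD k (0, 0, 0)).2.1 - rd.getD k 0 * (Jd.getD k (0, 0, 0)).2.2 : ℤ) : ℝ)
        / 10 ^ 6 ≤ (((wa k : ℂ) + (wb k : ℂ) * Complex.I) *
      ∫ y in (1:ℝ)..2, (G y : ℂ) * (y : ℂ) ^ (-(sk k))).re := by
    intro k hk
    rw [mem_range] at hk
    have h1 := hJ k hk
    have h2 := hC k
    have h3 : ∫ y in (1:ℝ)..2, (G y : ℂ) * (y : ℂ) ^ (-(sk k)) =
      4 / (9 * sk k * riemannZeta (sk k) ^ 2) * PP k := h2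
    have h4 := re_lower (wa k) (wb k) ((Jd.getD k (0, 0, 0)).1 : ℝ) ((Jd.getD k (0, 0, 0)).2.1 : ℝ)
      ((Jd.getD k (0, 0, 0)).2.2 : ℝ) ((rd.getD k 0 : ℤ) : ℝ)
      (4 / (9 * sk k * riemannZeta (sk k) ^ 2) * PP k) (by
        rw [Complex.ofReal_intCast, Complex.ofReal_intCast]
        exact h1) (by
        have : ∀ k < 8, (wd.getD k (0, 0)).1 ^ 2 + (wd.getD k (0, 0)).2 ^ 2 ≤ (rd.getD k 0) ^ 2 := by
          decide
        unfold wa wb
        exact_mod_cast this k hk) (by
        have : ∀ k < 8, 0 ≤ rd.getD k 0 := by decide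
        exact_mod_cast this k hk)
    rw [h3]
    refine le_trans (le_of_eq ?_) h4
    unfold wa wb
    push_cast
    ring
  have hlow2 := Finset.sum_le_sum hlow
  have hval : (60226986000000000000 : ℝ) ≤ ∑ k ∈ range 8, (((wd.getD k (0, 0)).1 *
      (Jd.getD k (0, 0, 0)).1 - (wd.getD k (0, 0)).2 * (Jd.getD k (0, 0, 0)).2.1 -
      rd.getD k 0 * (Jd.getD k (0, 0, 0)).2.2 : ℤ) : ℝ) / 10 ^ 6 := by
    rw [← Finset.sum_div, le_div_iff₀ (by norm_num)]
    have : (60226986000000000000 * 10 ^ 6 : ℤ) ≤ ∑ k ∈ range 8, ((wd.getD k (0, 0)).1 *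
      (Jd.getD k (0, 0, 0)).1 - (wd.getD k (0, 0)).2 * (Jd.getD k (0, 0, 0)).2.1 -
      rd.getD k 0 * (Jd.getD k (0, 0, 0)).2.2) := by decide
    exact_mod_cast this
  have hend := le_trans hval (le_trans hlow2 hup)
  have hq : ∫ φ in (0:ℝ)..Real.pi, |Wf φ| ≤ 362738000000000000000 := hQ
  have hlp : Real.log 2 / Real.pi ≤ 0.2208 := by
    rw [div_le_iff₀ Real.pi_pos]
    have h1 := Real.log_two_lt_d9
    have h2 := Real.pi_gt_d2
    nlinarith
  have hlp0 : 0 ≤ Real.log 2 / Real.pi := by positivity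
  have hI0 : 0 ≤ ∫ φ in (0:ℝ)..Real.pi, |Wf φ| :=
    intervalIntegral.integral_nonneg Real.pi_pos.le (fun φ _ => abs_nonneg _)
  have hfin : (3 / 4) * (Real.log 2 / Real.pi) * ∫ φ in (0 : ℝ)..Real.pi, |Wf φ| ≤
      (3 / 4) * 0.2208 * 362738000000000000000 := by
    apply mul_le_mul _ hq hI0 (by norm_num)
    linarith
  norm_num at hfin hend
  linarith

end Pool.Agent.K1H59.OM
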